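import Pool.Agent.MP_d7dd47_co.Defs

namespace Pool.Agent.MP_d7dd47_co

open Finset Module

variable {n : ℕ}

/-- Every set of at most `n+1` points of `X` is affinely independent. -/
def GP (X : Finset (EuclideanSpace ℝ (Fin n))) : Prop :=
  ∀ T ⊆ X, T.card ≤ n + 1 → AffineIndependent ℝ ((↑) : T → EuclideanSpace ℝ (Fin n))

lemma GP.mono {X X' : Finset (EuclideanSpace ℝ (Fin n))} (h : GP X) (hs : X' ⊆ X) : GP X' :=
  fun T hT hc => h T (hT.trans hs) hc

lemma exists_ge_finrank_eq {V : Type*} [AddCommGroup V] [Module ℝ V] [FiniteDimensional ℝ V]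
    (k : ℕ) (hk : k ≤ finrank ℝ V) (W : Submodule ℝ V) (hW : finrank ℝ W ≤ k) :
    ∃ W' : Submodule ℝ V, W ≤ W' ∧ finrank ℝ W' = k := by
  induction k with
  | zero => exact ⟨W, le_rfl, by omega⟩
  | succ k ih =>
    rcases Nat.eq_or_lt_of_le hW with h | h
    · exact ⟨W, le_rfl, h⟩
    · obtain ⟨W1, h1, h2⟩ := ih (by omega) (by omega)
      have hlt : finrank ℝ W1 < finrank ℝ V := by omega
      obtain ⟨v, hv⟩ := W1.exists_of_finrank_lt hlt
      have hv1 : v ∉ W1 := by simpa using hv 1 one_ne_zero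
      refine ⟨W1 ⊔ Submodule.span ℝ {v}, h1.trans le_sup_left, ?_⟩
      rw [Submodule.finrank_sup_span_singleton hv1, h2]

lemma gp_of_genPos {X : Set (EuclideanSpace ℝ (Fin n))} (h : GenPos X)
    {S : Finset (EuclideanSpace ℝ (Fin n))} (hS : (S : Set _) ⊆ X) : GP S := by
  intro T hT hc
  by_contra hna
  have h3 : 3 ≤ T.card := by
    by_contra hlt
    push Not at hlt
    apply hna
    have h2 : T.card ≤ 2 := by omega
    rcases Nat.lt_or_ge T.card 2 with h1 | h1
    · have : Subsingleton T := by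
        rw [← Finset.card_le_one_iff_subsingleton_coe]; omega
      exact affineIndependent_of_subsingleton ℝ _
    · obtain ⟨a, b, hab, rfl⟩ := Finset.card_eq_two.1 (le_antisymm h2 h1)
      have := affineIndependent_of_ne ℝ hab
      have h' := this.range
      have e : Set.range ![a, b] = ((({a, b} : Finset _)) : Set _) := by
        simp [Matrix.range_cons, Set.pair_comm]
      rw [e] at h'
      exact h'
  obtain ⟨m, hm⟩ : ∃ m, T.card = m + 2 := ⟨T.card - 2, by omega⟩
  have hle := (finrank_vectorSpan_le_iff_not_affineIndependent ℝ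
    ((↑) : T → EuclideanSpace ℝ (Fin n)) (n := m) (by simpa using hm)).2 hna
  rw [Subtype.range_coe_subtype] at hle
  obtain ⟨W, hW1, hW2⟩ := exists_ge_finrank_eq m (by simp; omega) _ hle
  obtain ⟨p, hp⟩ : T.Nonempty := Finset.card_pos.1 (by omega)
  have hA := h (m + 1) (by omega) (by omega) (AffineSubspace.mk' p W) (by
    rw [AffineSubspace.direction_mk']; simpa using hW2)
  have hsub : (T : Set _) ⊆ X ∩ (AffineSubspace.mk' p W : Set (EuclideanSpace ℝ (Fin n))) := by
    intro q hq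
    refine ⟨hS (hT hq), ?_⟩
    have : q -ᵥ p ∈ W := hW1 (vsub_mem_vectorSpan ℝ hq hp)
    exact AffineSubspace.mem_mk'.2 this
  have := (Set.encard_le_encard hsub).trans hA
  rw [Set.encard_coe_eq_coe_finsetCard, hm] at this
  have : m + 2 ≤ m + 1 := by exact_mod_cast this
  omega

lemma genPos_of_gp {S : Finset (EuclideanSpace ℝ (Fin n))} (h : GP S) :
    GenPos (S : Set (EuclideanSpace ℝ (Fin n))) := by
  classical
  intro j hj2 hjn A hA
  by_contra hlt
  push Not at hlt
  have e : (S : Set _) ∩ (A : Set (EuclideanSpace ℝ (Fin n))) =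
      ((S.filter (fun x => x ∈ A) : Finset _) : Set _) := by
    ext x; simp
  rw [e, Set.encard_coe_eq_coe_finsetCard] at hlt
  have hlt' : j + 1 ≤ (S.filter (fun x => x ∈ A)).card := by exact_mod_cast hlt
  obtain ⟨T, hT, hTc⟩ := Finset.exists_subset_card_eq hlt'
  have hind := h T (hT.trans (Finset.filter_subset _ _)) (by omega)
  have h1 := (affineIndependent_iff_finrank_vectorSpan_eq ℝ
    ((↑) : T → EuclideanSpace ℝ (Fin n)) (n := j) (by simpa using hTc)).1 hind
  rw [Subtype.range_coe_subtype] at h1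
  have h2 : vectorSpan ℝ {x | x ∈ T} ≤ A.direction := by
    apply vectorSpan_mono
    intro x hx
    exact (Finset.mem_filter.1 (hT hx)).2
  have := Submodule.finrank_mono h2
  omega

/-- A coordinate functional on an affinely independent set. -/
lemma exists_coord {T : Finset (EuclideanSpace ℝ (Fin n))}
    (hT : AffineIndependent ℝ ((↑) : T → EuclideanSpace ℝ (Fin n))) {p} (hp : p ∈ T) :
    ∃ g : EuclideanSpace ℝ (Fin n) →ᵃ[ℝ] ℝ, g p = 1 ∧ ∀ q ∈ T, q ≠ p → g q = 0 := by
  obtain ⟨t, hst, hind, hspan⟩ := exists_subset_affineIndependent_affineSpan_eq_top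
    (s := (T : Set (EuclideanSpace ℝ (Fin n)))) hT
  let b : AffineBasis t ℝ (EuclideanSpace ℝ (Fin n)) :=
    ⟨Subtype.val, hind, by rw [Subtype.range_coe]; exact hspan⟩
  refine ⟨b.coord ⟨p, hst hp⟩, b.coord_apply_eq ⟨p, hst hp⟩, fun q hq hne => ?_⟩
  exact b.coord_apply_ne (i := ⟨p, hst hp⟩) (j := ⟨q, hst hq⟩)
    (fun h => hne (congrArg Subtype.val h).symm)

/-- A nonzero affine functional vanishes on at most `n` points of a set in general position. -/
lemma card_zero_le {X : Finset (EuclideanSpace ℝ (Fin n))} (hX : GP X)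
    (f : EuclideanSpace ℝ (Fin n) →ᵃ[ℝ] ℝ) {p} (hp : f p ≠ 0) :
    (X.filter (fun x => f x = 0)).card ≤ n := by
  by_contra hlt
  push Not at hlt
  obtain ⟨T, hT, hTc⟩ := Finset.exists_subset_card_eq (Nat.succ_le_of_lt hlt)
  have hind := hX T (hT.trans (Finset.filter_subset _ _)) (by omega)
  have htop := (hind.affineSpan_eq_top_iff_card_eq_finrank_add_one).2 (by simpa using hTc)
  rw [Subtype.range_coe_subtype] at htop
  have : f = 0 := AffineMap.ext_on htop (fun x hx => by
    simpa using (Finset.mem_filter.1 (hT hx)).2)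
  apply hp
  rw [this]; rfl

lemma notMem_hull_of_sep {s : Set (EuclideanSpace ℝ (Fin n))} {z}
    (h : EuclideanSpace ℝ (Fin n) →ᵃ[ℝ] ℝ) (hz : 0 < h z) (hs : ∀ y ∈ s, h y ≤ 0) :
    z ∉ convexHull ℝ s := by
  intro hmem
  have hc : Convex ℝ (h ⁻¹' Set.Iic 0) := (convex_Iic (0 : ℝ)).affine_preimage h
  have hsub : s ⊆ h ⁻¹' Set.Iic 0 := fun y hy => hs y hy
  have : h z ≤ 0 := convexHull_min hsub hc hmem
  exact absurd hz (not_lt.2 this)

/-- Points of a simplicial face are extreme. -/
lemma face_extreme {X Y : Finset (EuclideanSpace ℝ (Fin n))} (hX : GP X) (hY : Y ⊆ X)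
    (f : EuclideanSpace ℝ (Fin n) →ᵃ[ℝ] ℝ) {p} (hp : f p ≠ 0) (hf : ∀ y ∈ Y, 0 ≤ f y)
    {z} (hzY : z ∈ Y) (hz : f z = 0) :
    z ∉ convexHull ℝ ((Y : Set (EuclideanSpace ℝ (Fin n))) \ {z}) := by
  classical
  have hc := card_zero_le hX f hp
  have hind := hX _ (Finset.filter_subset (fun x => f x = 0) X) (by omega)
  obtain ⟨g, hg1, hg0⟩ := exists_coord hind (p := z) (Finset.mem_filter.2 ⟨hY hzY, hz⟩)
  obtain ⟨M, hM⟩ : ∃ M : ℝ, ∀ y ∈ Y, g y / f y ≤ M := by
    obtain ⟨M, hM⟩ := (Y.image (fun y => g y / f y)).bddAbove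
    exact ⟨M, fun y hy => hM (by simpa using ⟨y, hy, rfl⟩)⟩
  apply notMem_hull_of_sep (g - M • f)
  · simp [hg1, hz]
  · rintro y ⟨hy, hne⟩
    have hy' : y ∈ Y := hy
    have hne' : y ≠ z := hne
    rcases (hf y hy').eq_or_lt with h0 | h0
    · have := hg0 y (Finset.mem_filter.2 ⟨hY hy', h0.symm⟩) hne'
      simp [this, ← h0]
    · have := (div_le_iff₀ h0).1 (hM y hy')
      simp only [AffineMap.coe_sub, AffineMap.coe_smul, Pi.sub_apply, Pi.smul_apply, smul_eq_mul]
      linarith

/-- A supporting hyperplane through `k ≤ n` points. -/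
lemma exists_support {S : Finset (EuclideanSpace ℝ (Fin n))} (hS : GP S) (hc : n + 1 ≤ S.card)
    (k : ℕ) (hk : k ≤ n) :
    ∃ f : EuclideanSpace ℝ (Fin n) →ᵃ[ℝ] ℝ, (∃ p, f p ≠ 0) ∧ (∀ y ∈ S, 0 ≤ f y) ∧
      k ≤ (S.filter (fun x => f x = 0)).card := by
  classical
  induction k with
  | zero => exact ⟨AffineMap.const ℝ _ 1, ⟨0, by simp⟩, by simp, Nat.zero_le _⟩
  | succ k ih =>
    obtain ⟨f, ⟨p, hp⟩, hf, hkf⟩ := ih (by omega)
    rcases Nat.lt_or_ge k (S.filter (fun x => f x = 0)).card with h | h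
    · exact ⟨f, ⟨p, hp⟩, hf, h⟩
    set Z := S.filter (fun x => f x = 0) with hZ
    have hZk : Z.card = k := le_antisymm h hkf
    have h2 : 2 ≤ (S \ Z).card := by
      have := Finset.card_sdiff_of_subset (Finset.filter_subset (fun x => f x = 0) S)
      rw [← hZ] at this
      omega
    obtain ⟨p1, hp1, p2, hp2, hne⟩ := Finset.one_lt_card.1 h2
    have pos : ∀ q ∈ S \ Z, 0 < f q := by
      intro q hq
      rw [Finset.mem_sdiff] at hq
      rcases (hf q hq.1).eq_or_lt with h0 | h0
      · exact absurd (Finset.mem_filter.2 ⟨hq.1, h0.symm⟩) hq.2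
      · exact h0
    have hsub : insert p1 (insert p2 Z) ⊆ S := by
      intro x hx
      simp only [Finset.mem_insert] at hx
      rcases hx with rfl | rfl | hx
      · exact (Finset.mem_sdiff.1 hp1).1
      · exact (Finset.mem_sdiff.1 hp2).1
      · exact (Finset.mem_filter.1 hx).1
    have hcard : (insert p1 (insert p2 Z)).card ≤ n + 1 := by
      have a := Finset.card_insert_le p1 (insert p2 Z)
      have b := Finset.card_insert_le p2 Z
      omega
    obtain ⟨g, hg1, hg0⟩ := exists_coord (hS _ hsub hcard) (p := p1) (by simp)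
    obtain ⟨q, hq, hmax⟩ := Finset.exists_max_image (S \ Z) (fun y => g y / f y) ⟨p1, hp1⟩
    have hr : 0 < g q / f q := by
      have := hmax p1 hp1
      rw [hg1] at this
      exact lt_of_lt_of_le (one_div_pos.2 (pos p1 hp1)) this
    have hgZ : ∀ z ∈ Z, g z = 0 := by
      intro z hz
      apply hg0 z (by simp [hz])
      rintro rfl
      exact (Finset.mem_sdiff.1 hp1).2 hz
    refine ⟨(g q / f q) • f - g, ⟨p2, ?_⟩, ?_, ?_⟩
    · have h0 : g p2 = 0 := hg0 p2 (by simp) hne.symm
      simp only [AffineMap.coe_sub, AffineMap.coe_smul, Pi.sub_apply, Pi.smul_apply, smul_eq_mul,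
        h0, sub_zero]
      exact (mul_pos hr (pos p2 hp2)).ne'
    · intro y hy
      simp only [AffineMap.coe_sub, AffineMap.coe_smul, Pi.sub_apply, Pi.smul_apply, smul_eq_mul]
      by_cases hyZ : y ∈ Z
      · rw [hgZ y hyZ, (Finset.mem_filter.1 hyZ).2]; simp
      · have hy' : y ∈ S \ Z := Finset.mem_sdiff.2 ⟨hy, hyZ⟩
        have := (div_le_iff₀ (pos y hy')).1 (hmax y hy')
        linarith
    · have hsub2 : insert q Z ⊆ S.filter (fun x => ((g q / f q) • f - g) x = 0) := by
        intro x hx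
        rw [Finset.mem_insert] at hx
        rw [Finset.mem_filter]
        simp only [AffineMap.coe_sub, AffineMap.coe_smul, Pi.sub_apply, Pi.smul_apply, smul_eq_mul]
        rcases hx with rfl | hx
        · refine ⟨(Finset.mem_sdiff.1 hq).1, ?_⟩
          have := (pos x hq).ne'
          field_simp
          ring
        · refine ⟨(Finset.mem_filter.1 hx).1, ?_⟩
          rw [hgZ x hx, (Finset.mem_filter.1 hx).2]; simp
      have := Finset.card_le_card hsub2
      rw [Finset.card_insert_of_notMem (Finset.mem_sdiff.1 hq).2] at this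
      omega

end Pool.Agent.MP_d7dd47_co
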