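import Mathlib

namespace Pool.Agent.MP_d7dd47_co

/-- General position as in the problem file: for `2 ≤ j ≤ n`, no `(j-1)`-dimensional affine flat
contains more than `j` points of `X`. -/
def GenPos {n : ℕ} (X : Set (EuclideanSpace ℝ (Fin n))) : Prop :=
  ∀ j : ℕ, 2 ≤ j → j ≤ n → ∀ A : AffineSubspace ℝ (EuclideanSpace ℝ (Fin n)),
    Module.finrank ℝ A.direction = j - 1 → (X ∩ (A : Set (EuclideanSpace ℝ (Fin n)))).encard ≤ j

/-- No point of `Y` lies in the convex hull of the other points of `Y`. -/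
def ConvIndep {n : ℕ} (Y : Set (EuclideanSpace ℝ (Fin n))) : Prop :=
  ∀ y ∈ Y, y ∉ convexHull ℝ (Y \ {y})

end Pool.Agent.MP_d7dd47_co
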