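import Pool.Agent.MP_d7dd47_co.Basic

namespace Pool.Agent.MP_d7dd47_co.Low

open Finset Pool.Agent.MP_d7dd47_co

def certs : List (ℕ × List ℕ) :=
  [(6, [962, 22784, 300, 5059, 884, 11, 0, 0, 0, 0, 0, 0]),
   (7, [4606507155022, 2143380345, 67974723721, 6710290912, 0, 0, 0, 0, 6293250000, 0, 0, 1695936360000]),
   (7, [33984780339, 11576329, 5468585959, 0, 6045957373, 0, 0, 0, 0, 2062470000, 13770000, 0]),
   (10, [611483335, 67725658605, 0, 305488062397, 0, 48665755663, 0, 0, 0, 474780000, 0, 502830000]),
   (11, [31367888056691, 0, 68709680796785305, 0, 105384974842838004, 0, 455796028830000, 0, 17727303630000, 0, 394752698070000, 0]),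
   (9, [1542918425509952, 0, 0, 267702355196155, 7014542181983893, 0, 172119512420000, 13908890870000, 235302209990000, 0, 0, 0]),
   (8, [0, 7088193729100624, 424112884799, 0, 0, 4627568386774577, 12432022030000, 25891815640000, 0, 31308559090000, 0, 0]),
   (6, [0, 1000619798581577, 0, 219388171388570, 19581322459853, 0, 0, 58589047470000, 0, 0, 3925680960000, 16425192600000]),
   (10, [0, 0, 2513467367, 8463339869158, 8081377761, 124888065714, 0, 17635290000, 3116017590000, 0, 0, 0]),
   (7, [311679964, 0, 16760962, 0, 6253743, 15331, 0, 0, 0, 16260000, 0, 84870000]),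
   (11, [0, 1713333887, 350835020300, 1801223469, 537067962344, 0, 0, 0, 646830000, 1405230000, 0, 0]),
   (8, [3603270908, 1074348776860, 0, 0, 3427353313, 701808808919, 2810460000, 0, 0, 0, 0, 1293930000]),
   (10, [1205009074, 0, 530383955, 989704654175, 0, 14619502796, 0, 0, 364329560000, 1679050000, 0, 0]),
   (7, [61101123039118305, 0, 902366007284798, 0, 0, 20759238106897, 81675837930000, 0, 0, 0, 104329575030000, 22492080072600000]),
   (8, [0, 760222322535761150913, 0, 0, 0, 495652071420238469087, 0, 2847236171019090000, 0, 3287857200859940000, 313672596652840000, 127693507440690000]),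
   (11, [0, 0, 6939565341372869, 0, 10629549011748261, 636124768870, 46950857190000, 0, 0, 18648516990000, 38826225960000, 0]),
   (9, [2704018576655261, 0, 0, 0, 12258668464382468, 92228324752271, 500252258470000, 5593394770000, 0, 0, 602222833790000, 0]),
   (6, [0, 4086465437354044, 30774878086573, 901575326009383, 0, 0, 0, 200489334460000, 0, 166816200230000, 1860815300000, 0]),
   (10, [0, 10545003, 551, 154874899, 0, 13739547, 9210000, 0, 28470000, 0, 0, 0]),
   (6, [4052251346, 118663513572, 1390889087, 26201295995, 0, 0, 0, 0, 0, 5724090000, 0, 437280000]),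
   (8, [1341474, 391028975, 194675, 0, 1557920, 254926956, 0, 0, 0, 0, 240000, 0]),
   (8, [18980, 62301489, 0, 27152, 205065, 40617314, 0, 270000, 0, 0, 0, 0]),
   (10, [0, 0, 0, 12226484629927547081, 0, 427928264382642919, 497775588331770000, 5323508935140000, 3904733249280960000, 0, 0, 3063122456280000]),
   (11, [0, 389498, 63734684, 335386, 97761761, 48671, 0, 60000, 0, 0, 0, 0]),
   (10, [0, 42038448951, 0, 562988431185, 0, 52561739864, 33882960000, 0, 96853870000, 5510000, 0, 0]),
   (6, [2740922342731960, 71895174561732633, 0, 15920513698755407, 0, 0, 0, 0, 41726672610000, 1764240044010000, 0, 2411933015280000]),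
   (7, [6990784005609224, 0, 103199190917283, 9461206653493, 0, 0, 4286760690000, 0, 9546911190000, 0, 0, 2573575026990000]),
   (11, [0, 0, 7958706678206185, 32509526089142, 12190101297374673, 0, 51400016610000, 0, 14875335480000, 22101318030000, 0, 0]),
   (6, [11331678, 268196761, 3533901, 59594932, 10412728, 0, 0, 0, 330000, 0, 0, 0]),
   (9, [731107069590067, 65271542231804, 0, 0, 3335245644428129, 0, 0, 13084299360000, 54685859590000, 0, 195500545870000, 0]),
   (7, [3372391898836, 0, 398788446251, 0, 375646664913, 0, 459930000, 0, 0, 209408130000, 0, 366753450000]),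
   (7, [4075821246236273029, 0, 142468273059816971, 0, 0, 0, 0, 0, 1104702551580000, 165570484774770000, 1518701955990000, 1302051622839780000]),
   (10, [6923143084, 0, 0, 4606294302850, 2143380345, 67974723721, 0, 0, 1695936360000, 0, 0, 6293250000]),
   (11, [0, 12769537698529, 4387763427771400, 0, 6730120898840071, 0, 12362296080000, 3515335590000, 0, 0, 29117064120000, 0]),
   (6, [0, 725970370597, 0, 161124287682, 14200271641, 327140080, 0, 42487350000, 0, 0, 0, 11910840000]),
   (8, [1294590782, 516109742277, 247976735, 0, 0, 336919080206, 847020000, 0, 0, 2678820000, 0, 0])]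

def vecs : List (List ℤ) :=
  [[1, 0, 0, 0, 0, 0],
   [1, 30000, 0, 0, 0, 0],
   [1, 0, 30000, 0, 0, 0],
   [1, 0, 0, 30000, 0, 0],
   [1, 0, 0, 0, 30000, 0],
   [1, 0, 0, 0, 0, 30000],
   [1, 22784, 300, 5059, 884, 11],
   [1, 47, 3448, 48, 4799, 14],
   [1, 18069, 9, 8, 72, 11780],
   [1, 884, 11, 963, 22784, 300],
   [1, 4799, 14, 21643, 47, 3448],
   [1, 72, 11780, 62, 18069, 9]]

def elim (v : List ℤ) (c : ℕ) (x : ℕ × List ℤ) : ℕ × List ℤ :=
  (x.1, (List.range 6).map (fun e => v.getD c 0 * x.2.getD e 0 - x.2.getD c 0 * v.getD e 0))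

/-- every sublist of length at most `k` is linearly independent (sufficient test). -/
def gp : ℕ → ℕ → List (ℕ × List ℤ) → Bool
  | _, _, [] => true
  | _, 0, _ :: _ => true
  | 0, _ + 1, _ :: _ => false
  | m + 1, k + 1, x :: L => gp m (k + 1) L &&
      (List.range 6).any (fun c => (x.2.getD c 0 != 0) && gp m k (L.map (elim x.2 c)))

lemma sum_elim (a : ℕ → ℝ) (v : List ℤ) (c e : ℕ) (he : e < 6) (L : List (ℕ × List ℤ)) :
    ((L.map (elim v c)).map (fun x => a x.1 * (x.2.getD e 0 : ℝ))).sum =
      (v.getD c 0 : ℝ) * (L.map (fun x => a x.1 * (x.2.getD e 0 : ℝ))).sum -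
        (L.map (fun x => a x.1 * (x.2.getD c 0 : ℝ))).sum * (v.getD e 0 : ℝ) := by
  induction L with
  | nil => simp
  | cons x L ih =>
    simp only [List.map_cons, List.sum_cons, ih]
    have : (elim v c x).2.getD e 0 = v.getD c 0 * x.2.getD e 0 - x.2.getD c 0 * v.getD e 0 := by
      simp [elim, List.getD_eq_getElem?_getD, he]
    rw [this]
    have h1 : (elim v c x).1 = x.1 := rfl
    rw [h1]
    push_cast
    ring

lemma gp_sound (a : ℕ → ℝ) (m : ℕ) : ∀ (k : ℕ) (L : List (ℕ × List ℤ)), gp m k L = true →
    L.countP (fun x => decide (a x.1 ≠ 0)) ≤ k →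
    (∀ e < 6, (L.map (fun x => a x.1 * (x.2.getD e 0 : ℝ))).sum = 0) → ∀ x ∈ L, a x.1 = 0 := by
  have zero : ∀ L : List (ℕ × List ℤ), L.countP (fun x => decide (a x.1 ≠ 0)) ≤ 0 →
      ∀ x ∈ L, a x.1 = 0 := by
    intro L h x hx
    have := List.countP_eq_zero.1 (Nat.le_zero.1 h) x hx
    simpa using this
  induction m with
  | zero =>
    intro k L h hc _
    match k, L, h, hc with
    | _, [], _, _ => simp
    | 0, y :: L, _, hc => exact zero _ hc
    | k + 1, y :: L, h, _ => simp [gp] at h
  | succ m ih =>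
    intro k L h hc hs
    match k, L, h, hc, hs with
    | _, [], _, _, _ => simp
    | 0, y :: L, _, hc, _ => exact zero _ hc
    | k + 1, y :: L, h, hc, hs =>
      simp only [gp, Bool.and_eq_true, List.any_eq_true, List.mem_range, bne_iff_ne] at h
      obtain ⟨h1, c, hc6, hpiv, h2⟩ := h
      by_cases hy : a y.1 = 0
      · have := ih (k + 1) L h1 (by simpa [List.countP_cons, hy] using hc)
          (fun e he => by simpa [hy] using hs e he)
        intro x hx
        rcases List.mem_cons.1 hx with rfl | hx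
        · exact hy
        · exact this x hx
      · exfalso
        have hc' : L.countP (fun x => decide (a x.1 ≠ 0)) ≤ k := by
          simpa [List.countP_cons, hy] using hc
        have hz := ih k (L.map (elim y.2 c)) h2 (by
            rw [List.countP_map]; exact hc') (fun e he => by
            rw [sum_elim a y.2 c e he]
            have e1 := hs e he
            have e2 := hs c hc6
            simp only [List.map_cons, List.sum_cons] at e1 e2
            rw [eq_neg_of_add_eq_zero_right e1, eq_neg_of_add_eq_zero_right e2]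
            ring)
        have hz' : ∀ x ∈ L, a x.1 = 0 := fun x hx => hz (elim y.2 c x) (List.mem_map_of_mem hx)
        have e2 := hs c hc6
        simp only [List.map_cons, List.sum_cons] at e2
        have : (L.map (fun x => a x.1 * (x.2.getD c 0 : ℝ))).sum = 0 := by
          apply List.sum_eq_zero
          intro z hz
          obtain ⟨x, hx, rfl⟩ := List.mem_map.1 hz
          rw [hz' x hx, zero_mul]
        rw [this, add_zero] at e2
        rcases mul_eq_zero.1 e2 with h | h
        · exact hy h
        · exact hpiv (by exact_mod_cast h)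

def vec (i e : ℕ) : ℤ := (vecs.getD i []).getD e 0

def L0 : List (ℕ × List ℤ) := (List.range 12).map (fun i => (i, vecs.getD i []))

theorem gp_L0 : gp 12 6 L0 = true := by decide +kernel

theorem vec_zero : ∀ i < 12, vec i 0 = 1 := by decide +kernel

theorem certs_ok : ∀ c ∈ certs, c.1 < 12 ∧ c.2.getD c.1 0 = 0 ∧
    0 < ∑ j ∈ range 12, c.2.getD j 0 ∧
    ∀ e < 6, ∑ j ∈ range 12, (c.2.getD j 0 : ℤ) * vec j e =
      (∑ j ∈ range 12, c.2.getD j 0 : ℕ) * vec c.1 e := by decide +kernel

theorem certs_cover_b : (List.range 12).all (fun x => (List.range 12).all (fun y =>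
    (List.range 12).all (fun z => certs.any (fun c => c.1 != x && c.1 != y && c.1 != z &&
      c.2.getD x 0 == 0 && c.2.getD y 0 == 0 && c.2.getD z 0 == 0)))) = true := by
  decide +kernel

theorem certs_cover : ∀ x < 12, ∀ y < 12, ∀ z < 12, ∃ c ∈ certs, c.1 ≠ x ∧ c.1 ≠ y ∧ c.1 ≠ z ∧
    c.2.getD x 0 = 0 ∧ c.2.getD y 0 = 0 ∧ c.2.getD z 0 = 0 := by
  intro x hx y hy z hz
  have h := certs_cover_b
  simp only [List.all_eq_true, List.mem_range, List.any_eq_true, Bool.and_eq_true, bne_iff_ne,
    beq_iff_eq] at h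
  obtain ⟨c, hc, h⟩ := h x hx y hy z hz
  exact ⟨c, hc, by tauto⟩

noncomputable def P (i : ℕ) : EuclideanSpace ℝ (Fin 5) :=
  WithLp.toLp 2 (fun e : Fin 5 => (vec i (e + 1) : ℝ))

lemma lin_indep (a : ℕ → ℝ) (J : Finset ℕ) (hJ : J.card ≤ 6) (ha : ∀ i, a i ≠ 0 → i ∈ J)
    (h0 : ∑ i ∈ range 12, a i = 0) (h1 : ∑ i ∈ range 12, a i • P i = 0) :
    ∀ i < 12, a i = 0 := by
  classical
  have := gp_sound a 12 6 L0 gp_L0 (by
      unfold L0
      rw [List.countP_map, List.countP_eq_length_filter,
        ← List.toFinset_card_of_nodup (List.nodup_range.filter _)]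
      refine le_trans (Finset.card_le_card ?_) hJ
      intro i hi
      simp only [List.toFinset_filter, Finset.mem_filter, Function.comp, decide_eq_true_eq] at hi
      exact ha i hi.2) (by
      intro e he
      unfold L0
      rw [List.map_map]
      have : ((List.range 12).map ((fun x : ℕ × List ℤ => a x.1 * (x.2.getD e 0 : ℝ)) ∘
          fun i => (i, vecs.getD i []))).sum = ∑ i ∈ range 12, a i * (vec i e : ℝ) := by
        rw [Finset.sum_list_map_count]
        simp only [List.toFinset_range]
        apply Finset.sum_congr rfl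
        intro i hi
        rw [List.count_eq_one_of_mem List.nodup_range (by simpa using hi)]
        simp [vec]
      rw [this]
      rcases e with _ | e
      · rw [← h0]
        apply Finset.sum_congr rfl
        intro i hi
        rw [vec_zero i (Finset.mem_range.1 hi)]; simp
      · have h2 := congrArg (fun v : EuclideanSpace ℝ (Fin 5) => v ⟨e, by omega⟩) h1
        simpa [P, Finset.sum_apply] using h2)
  intro i hi
  exact this (i, vecs.getD i []) (List.mem_map.2 ⟨i, List.mem_range.2 hi, rfl⟩)

lemma aff_indep (J : Finset ℕ) (hJ : J.card ≤ 6) (hJ' : J ⊆ range 12) :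
    AffineIndependent ℝ (fun j : J => P j) := by
  classical
  rw [affineIndependent_iff]
  intro s w hw hp j hj
  have key : ∀ {M : Type} [AddCommMonoid M] [Module ℝ M] (g : ℕ → M),
      ∑ i ∈ range 12, (∑ j ∈ s, if j.1 = i then w j else 0) • g i = ∑ j ∈ s, w j • g j := by
    intro M _ _ g
    simp only [Finset.sum_smul]
    rw [Finset.sum_comm]
    apply Finset.sum_congr rfl
    intro j _
    simp only [ite_smul, zero_smul]
    rw [Finset.sum_ite_eq, if_pos (hJ' j.2)]
  have := lin_indep (fun i => ∑ j ∈ s, if j.1 = i then w j else 0) J hJ (by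
      intro i hi
      obtain ⟨j, _, hj⟩ := Finset.exists_ne_zero_of_sum_ne_zero hi
      have : j.1 = i := by by_contra h; simp [h] at hj
      exact this ▸ j.2) (by
      have := key (fun _ => (1 : ℝ))
      simp only [smul_eq_mul, mul_one] at this
      rw [this, hw]) (by rw [key P, hp]) j.1 (Finset.mem_range.1 (hJ' j.2))
  rw [Finset.sum_eq_single j] at this
  · simpa using this
  · intro b _ hb
    rw [if_neg (fun h => hb (Subtype.ext h))]
  · intro h; exact absurd hj h

lemma P_inj : Set.InjOn P (range 12 : Finset ℕ) := by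
  classical
  intro i hi j hj h
  have hind := aff_indep {i, j} (le_trans Finset.card_le_two (by norm_num)) (by
    intro x hx
    simp only [Finset.mem_insert, Finset.mem_singleton] at hx
    rcases hx with rfl | rfl
    · exact hi
    · exact hj)
  have := hind.injective (a₁ := ⟨i, by simp⟩) (a₂ := ⟨j, by simp⟩) h
  exact congrArg Subtype.val this

open Classical in
noncomputable def X0 : Finset (EuclideanSpace ℝ (Fin 5)) := (range 12).image P

lemma card_X0 : X0.card = 12 := by
  classical
  unfold X0
  rw [Finset.card_image_of_injOn P_inj]; simp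

lemma exists_index {T : Finset (EuclideanSpace ℝ (Fin 5))} (hT : T ⊆ X0) :
    ∃ J ⊆ range 12, J.card = T.card ∧ (T : Set _) = P '' (J : Set ℕ) := by
  classical
  unfold X0 at hT
  obtain ⟨J, hJ, rfl⟩ := Finset.subset_image_iff.1 hT
  refine ⟨J, hJ, ?_, by simp⟩
  rw [Finset.card_image_of_injOn (P_inj.mono (by exact_mod_cast hJ))]

lemma gp_X0 : GP X0 := by
  intro T hT hc
  obtain ⟨J, hJ, hJc, hTJ⟩ := exists_index hT
  have h := (aff_indep J (by omega) hJ).range
  have e : Set.range (fun j : J => P j) = (T : Set _) := by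
    rw [hTJ]; ext x; simp
  rw [e] at h
  exact h

lemma no_nine {T : Finset (EuclideanSpace ℝ (Fin 5))} (hT : T ⊆ X0) (hc : T.card = 9) :
    ¬ ConvIndep (T : Set (EuclideanSpace ℝ (Fin 5))) := by
  classical
  obtain ⟨J, hJ, hJc, hTJ⟩ := exists_index hT
  have h3 : (range 12 \ J).card = 3 := by
    rw [Finset.card_sdiff_of_subset hJ]; simp; omega
  obtain ⟨x, y, z, _, _, _, hxyz⟩ := Finset.card_eq_three.1 h3
  have hmem : ∀ u, u ∈ ({x, y, z} : Finset ℕ) → u < 12 := by
    intro u hu
    rw [← hxyz] at hu
    exact Finset.mem_range.1 (Finset.mem_sdiff.1 hu).1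
  obtain ⟨c, hc, n1, n2, n3, z1, z2, z3⟩ := certs_cover x (hmem x (by simp)) y (hmem y (by simp))
    z (hmem z (by simp))
  obtain ⟨hc12, hc0, hpos, hsum⟩ := certs_ok c hc
  have inJ : ∀ u < 12, u ≠ x → u ≠ y → u ≠ z → u ∈ J := by
    intro u hu a1 a2 a3
    by_contra hn
    have : u ∈ range 12 \ J := Finset.mem_sdiff.2 ⟨Finset.mem_range.2 hu, hn⟩
    rw [hxyz] at this
    simp [a1, a2, a3] at this
  intro hconv
  apply hconv (P c.1) (by rw [hTJ]; exact ⟨c.1, inJ _ hc12 n1 n2 n3, rfl⟩)
  set D : ℝ := ((∑ j ∈ range 12, c.2.getD j 0 : ℕ) : ℝ) with hD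
  have hDpos : 0 < D := by rw [hD]; exact_mod_cast hpos
  have hP : P c.1 = ∑ j ∈ (range 12).filter (fun j => c.2.getD j 0 ≠ 0),
      ((c.2.getD j 0 : ℝ) / D) • P j := by
    rw [Finset.sum_filter_of_ne (by
      intro j _ hj h0
      apply hj
      rw [h0]; simp)]
    ext e
    have := hsum (e + 1) (by omega)
    have h' : ∑ j ∈ range 12, (c.2.getD j 0 : ℝ) * (vec j (e + 1) : ℝ) =
        D * (vec c.1 (e + 1) : ℝ) := by
      rw [hD]; exact_mod_cast this
    simp only [P, WithLp.ofLp_sum, Finset.sum_apply, WithLp.ofLp_smul, Pi.smul_apply, smul_eq_mul]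
    simp only [div_mul_eq_mul_div]
    rw [← Finset.sum_div, h']
    field_simp
  rw [hP]
  apply (convex_convexHull ℝ _).sum_mem
  · intro j _; positivity
  · rw [Finset.sum_filter_of_ne (by
      intro j _ hj h0
      apply hj
      rw [h0]; simp), ← Finset.sum_div, hD]
    push_cast
    exact div_self (by rw [hD] at hDpos; push_cast at hDpos; exact hDpos.ne')
  · intro j hj
    rw [Finset.mem_filter] at hj
    apply subset_convexHull
    have hj12 := Finset.mem_range.1 hj.1
    refine ⟨?_, ?_⟩
    · rw [hTJ]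
      refine ⟨j, inJ j hj12 ?_ ?_ ?_, rfl⟩
      · rintro rfl; exact hj.2 z1
      · rintro rfl; exact hj.2 z2
      · rintro rfl; exact hj.2 z3
    · intro h
      rw [← hP] at h
      have : j = c.1 := P_inj hj.1 (Finset.mem_range.2 hc12) h
      exact hj.2 (this ▸ hc0)

end Pool.Agent.MP_d7dd47_co.Low
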