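import Pool.Agent.MP_d7dd47_co.Basic

namespace Pool.Agent.MP_d7dd47_co

open Finset Module

variable {n : ℕ}

open Classical in
/-- Extreme points of a finite set. -/
noncomputable def ext (X : Finset (EuclideanSpace ℝ (Fin n))) :
    Finset (EuclideanSpace ℝ (Fin n)) :=
  X.filter (fun x => x ∉ convexHull ℝ ((X : Set (EuclideanSpace ℝ (Fin n))) \ {x}))

lemma mem_ext {X : Finset (EuclideanSpace ℝ (Fin n))} {x} :
    x ∈ ext X ↔ x ∈ X ∧ x ∉ convexHull ℝ ((X : Set (EuclideanSpace ℝ (Fin n))) \ {x}) := by
  classical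
  unfold ext; simp only [Finset.mem_filter]

lemma ext_subset (X : Finset (EuclideanSpace ℝ (Fin n))) : ext X ⊆ X :=
  fun _ hx => (mem_ext.1 hx).1

lemma mem_ext_of_subset {X Y : Finset (EuclideanSpace ℝ (Fin n))} (h : Y ⊆ X) {x}
    (hx : x ∈ ext X) (hY : x ∈ Y) : x ∈ ext Y := by
  refine mem_ext.2 ⟨hY, fun hm => (mem_ext.1 hx).2 ?_⟩
  exact convexHull_mono (Set.sdiff_subset_sdiff_left (by exact_mod_cast h)) hm

lemma ext_face {X Y : Finset (EuclideanSpace ℝ (Fin n))} (hX : GP X) (hY : Y ⊆ X)
    (f : EuclideanSpace ℝ (Fin n) →ᵃ[ℝ] ℝ) {p} (hp : f p ≠ 0) (hf : ∀ y ∈ Y, 0 ≤ f y)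
    {z} (hzY : z ∈ Y) (hz : f z = 0) : z ∈ ext Y :=
  mem_ext.2 ⟨hzY, face_extreme hX hY f hp hf hzY hz⟩

lemma card_ext_ge {X : Finset (EuclideanSpace ℝ (Fin n))} (hX : GP X) (hc : n + 1 ≤ X.card) :
    n + 1 ≤ (ext X).card := by
  classical
  obtain ⟨f, ⟨p, hp⟩, hf, hk⟩ := exists_support hX hc n le_rfl
  have hle := card_zero_le hX f hp
  obtain ⟨q, hq, hmax⟩ := Finset.exists_max_image X f (Finset.card_pos.1 (by omega))
  have hqpos : 0 < f q := by
    by_contra hneg
    push Not at hneg
    have : X.filter (fun x => f x = 0) = X := by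
      apply Finset.filter_true_of_mem
      intro x hx
      exact le_antisymm ((hmax x hx).trans hneg) (hf x hx)
    rw [this] at hle
    omega
  have hq' : q ∈ ext X := by
    rcases Nat.eq_zero_or_pos n with h0 | h0
    · -- dimension zero: the constant functional
      subst h0
      refine mem_ext.2 ⟨hq, ?_⟩
      have : (X : Set (EuclideanSpace ℝ (Fin 0))) \ {q} = ∅ := by
        ext x; simp [Subsingleton.elim x q]
      rw [this]; simp
    · obtain ⟨z, hz⟩ : (X.filter (fun x => f x = 0)).Nonempty := Finset.card_pos.1 (by omega)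
      have hz0 := (Finset.mem_filter.1 hz).2
      refine ext_face hX (Finset.Subset.refl X) (AffineMap.const ℝ _ (f q) - f) (p := z) ?_ ?_ hq ?_
      · simp [hz0, hqpos.ne']
      · intro y hy
        simpa using hmax y hy
      · simp
  have hsub : insert q (X.filter (fun x => f x = 0)) ⊆ ext X := by
    intro x hx
    rw [Finset.mem_insert] at hx
    rcases hx with rfl | hx
    · exact hq'
    · exact ext_face hX (Finset.Subset.refl X) f hp hf (Finset.mem_filter.1 hx).1
        (Finset.mem_filter.1 hx).2
  have := Finset.card_le_card hsub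
  rw [Finset.card_insert_of_notMem (by simp [hqpos.ne'])] at this
  omega

/-- The zero set of `f` together with extreme points on the nonnegative side. -/
lemma side_ext {X : Finset (EuclideanSpace ℝ (Fin n))} (hX : GP X)
    (f : EuclideanSpace ℝ (Fin n) →ᵃ[ℝ] ℝ) {p} (hp : f p ≠ 0) :
    (X.filter (fun x => f x = 0)).card + ((ext X).filter (fun x => 0 < f x)).card ≤
      (ext (X.filter (fun x => 0 ≤ f x))).card := by
  classical
  rw [← Finset.card_union_of_disjoint]
  · apply Finset.card_le_card
    intro x hx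
    rw [Finset.mem_union] at hx
    rcases hx with hx | hx
    · rw [Finset.mem_filter] at hx
      exact ext_face hX (Finset.filter_subset _ _) f hp
        (fun y hy => (Finset.mem_filter.1 hy).2) (Finset.mem_filter.2 ⟨hx.1, hx.2.ge⟩) hx.2
    · rw [Finset.mem_filter] at hx
      exact mem_ext_of_subset (Finset.filter_subset _ _) hx.1
        (Finset.mem_filter.2 ⟨ext_subset _ hx.1, hx.2.le⟩)
  · rw [Finset.disjoint_left]
    intro x h1 h2
    have a := (Finset.mem_filter.1 h1).2
    have b := (Finset.mem_filter.1 h2).2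
    linarith

/-- One step of the argument. -/
lemma step {X : Finset (EuclideanSpace ℝ (Fin n))} (hX : GP X) (t : ℕ)
    (hc : n + 2 * t + 1 ≤ X.card) :
    (∃ Y ⊆ X, n + t + 1 ≤ (ext Y).card) ∨
      ∃ X' ⊆ X, X.card ≤ X'.card + t ∧ (ext X).card + n ≤ (ext X').card + t := by
  classical
  set I := X \ ext X with hI
  rcases Nat.lt_or_ge n I.card with h | h
  · obtain ⟨f, ⟨p, hp⟩, hf, hk⟩ := exists_support (hX.mono (Finset.sdiff_subset)) h n le_rfl
    have hle := card_zero_le hX f hp
    have hsub : I.filter (fun x => f x = 0) ⊆ X.filter (fun x => f x = 0) :=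
      Finset.filter_subset_filter _ Finset.sdiff_subset
    have heq : I.filter (fun x => f x = 0) = X.filter (fun x => f x = 0) :=
      Finset.eq_of_subset_of_card_le hsub (hle.trans hk)
    have hZ : (X.filter (fun x => f x = 0)).card = n := le_antisymm hle (heq ▸ hk)
    have hneg : X.filter (fun x => f x < 0) = (ext X).filter (fun x => f x < 0) := by
      ext x
      simp only [Finset.mem_filter]
      constructor
      · rintro ⟨hx, hfx⟩
        refine ⟨?_, hfx⟩
        by_contra hne
        have := hf x (Finset.mem_sdiff.2 ⟨hx, hne⟩)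
        linarith
      · rintro ⟨hx, hfx⟩
        exact ⟨ext_subset _ hx, hfx⟩
    rcases Nat.lt_or_ge t (X.filter (fun x => f x < 0)).card with hy | hy
    · left
      refine ⟨X.filter (fun x => 0 ≤ (-f) x), Finset.filter_subset _ _, ?_⟩
      have := side_ext hX (-f) (p := p) (by simpa using hp)
      have e1 : X.filter (fun x => (-f) x = 0) = X.filter (fun x => f x = 0) := by
        ext x; simp
      have e2 : (ext X).filter (fun x => 0 < (-f) x) = X.filter (fun x => f x < 0) := by
        rw [hneg]; ext x; simp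
      rw [e1, e2] at this
      omega
    · right
      refine ⟨X.filter (fun x => 0 ≤ f x), Finset.filter_subset _ _, ?_, ?_⟩
      · have := Finset.card_filter_add_card_filter_not (s := X) (fun x => 0 ≤ f x)
        have e : X.filter (fun x => ¬ 0 ≤ f x) = X.filter (fun x => f x < 0) := by
          ext x; simp
        rw [e] at this
        omega
      · have h1 := side_ext hX f hp
        have h2 := Finset.card_filter_add_card_filter_not (s := ext X) (fun x => 0 < f x)
        have e : (ext X).filter (fun x => ¬ 0 < f x) = X.filter (fun x => f x < 0) := by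
          rw [hneg]
          ext x
          simp only [Finset.mem_filter, not_lt]
          constructor
          · rintro ⟨hx, hfx⟩
            refine ⟨hx, lt_of_le_of_ne hfx fun h0 => ?_⟩
            have : x ∈ I.filter (fun x => f x = 0) := by
              rw [heq]; exact Finset.mem_filter.2 ⟨ext_subset _ hx, h0⟩
            exact (Finset.mem_sdiff.1 (Finset.mem_filter.1 this).1).2 hx
          · rintro ⟨hx, hfx⟩
            exact ⟨hx, hfx.le⟩
        rw [e] at h2
        omega
  · left
    obtain ⟨Z, hIZ, hZX, hZc⟩ := Finset.exists_subsuperset_card_eq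
      (Finset.sdiff_subset : I ⊆ X) h (by omega : n ≤ X.card)
    obtain ⟨p, hp⟩ : (X \ Z).Nonempty := by
      rw [← Finset.card_pos, Finset.card_sdiff_of_subset hZX]; omega
    rw [Finset.mem_sdiff] at hp
    have hind := hX (insert p Z) (Finset.insert_subset hp.1 hZX)
      (by rw [Finset.card_insert_of_notMem hp.2]; omega)
    obtain ⟨f, hf1, hf0⟩ := exists_coord hind (p := p) (by simp)
    have hp0 : f p ≠ 0 := by rw [hf1]; exact one_ne_zero
    have hle := card_zero_le hX f hp0
    have hsub : Z ⊆ X.filter (fun x => f x = 0) := by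
      intro z hz
      refine Finset.mem_filter.2 ⟨hZX hz, hf0 z (by simp [hz]) ?_⟩
      rintro rfl
      exact hp.2 hz
    have heq : Z = X.filter (fun x => f x = 0) :=
      Finset.eq_of_subset_of_card_le hsub (by omega)
    have hext : ∀ x ∈ X, f x ≠ 0 → x ∈ ext X := by
      intro x hx hfx
      by_contra hne
      have : x ∈ Z := hIZ (Finset.mem_sdiff.2 ⟨hx, hne⟩)
      rw [heq] at this
      exact hfx (Finset.mem_filter.1 this).2
    have h1 := side_ext hX f hp0
    have h2 := side_ext hX (-f) (p := p) (by simpa using hp0)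
    have e1 : X.filter (fun x => (-f) x = 0) = X.filter (fun x => f x = 0) := by
      ext x; simp
    rw [e1] at h2
    have hcover : X ⊆ X.filter (fun x => f x = 0) ∪
        ((ext X).filter (fun x => 0 < f x) ∪ (ext X).filter (fun x => 0 < (-f) x)) := by
      intro x hx
      simp only [Finset.mem_union, Finset.mem_filter]
      rcases lt_trichotomy (f x) 0 with h0 | h0 | h0
      · right; right; exact ⟨hext x hx h0.ne, by simpa using h0⟩
      · left; exact ⟨hx, h0⟩
      · right; left; exact ⟨hext x hx h0.ne', h0⟩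
    have h3 := (Finset.card_le_card hcover).trans ((Finset.card_union_le _ _).trans
      (Nat.add_le_add_left (Finset.card_union_le _ _) _))
    rw [← heq] at h1 h2 h3
    rcases Nat.lt_or_ge t ((ext X).filter (fun x => 0 < f x)).card with h4 | h4
    · exact ⟨_, Finset.filter_subset (fun x => 0 ≤ f x) X, by omega⟩
    · exact ⟨_, Finset.filter_subset (fun x => 0 ≤ (-f) x) X, by omega⟩

lemma iterate (t s : ℕ) (hs : n = t + s) (j : ℕ) :
    ∀ X : Finset (EuclideanSpace ℝ (Fin n)), GP X → n + 2 * t + 1 + j * t ≤ X.card →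
      n + t + 1 ≤ (ext X).card + (j + 1) * s → ∃ Y ⊆ X, n + t + 1 ≤ (ext Y).card := by
  induction j with
  | zero =>
    intro X hX hc hh
    rcases step hX t (by omega) with h | ⟨X', h1, _, h3⟩
    · exact h
    · exact ⟨X', h1, by omega⟩
  | succ j ih =>
    intro X hX hc hh
    have e1 : (j + 1) * t = j * t + t := by ring
    have e2 : (j + 1 + 1) * s = (j + 1) * s + s := by ring
    rcases step hX t (by omega) with h | ⟨X', h1, h2, h3⟩
    · exact h
    · obtain ⟨Y, hY, hc'⟩ := ih X' (hX.mono h1) (by omega) (by omega)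
      exact ⟨Y, hY.trans h1, hc'⟩

lemma upper_finset (t k : ℕ) (htn : t < n) (hk : n + k * t ≤ k * n)
    (X : Finset (EuclideanSpace ℝ (Fin n))) (hX : GP X) (hc : n + 1 + t * k ≤ X.card) :
    ∃ Y ⊆ X, Y.card = n + 1 + t ∧ ConvIndep (Y : Set (EuclideanSpace ℝ (Fin n))) := by
  have key : ∃ Y ⊆ X, n + t + 1 ≤ (ext Y).card := by
    have h0 := card_ext_ge hX (by omega)
    rcases Nat.eq_zero_or_pos t with rfl | ht
    · exact ⟨X, Finset.Subset.refl _, h0⟩
    obtain ⟨s, hs⟩ : ∃ s, n = t + s := ⟨n - t, by omega⟩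
    have hk2 : 2 ≤ k := by
      by_contra hlt
      have : k = 0 ∨ k = 1 := by omega
      rcases this with rfl | rfl <;> omega
    obtain ⟨j, rfl⟩ : ∃ j, k = j + 2 := ⟨k - 2, by omega⟩
    apply iterate t s hs j X hX
    · have : t * (j + 2) = 2 * t + j * t := by ring
      omega
    · have : t ≤ (j + 1) * s := by subst hs; nlinarith
      omega
  obtain ⟨Y, hY, hc'⟩ := key
  obtain ⟨W, hW, hWc⟩ := Finset.exists_subset_card_eq hc'
  refine ⟨W, hW.trans ((ext_subset Y).trans hY), by omega, fun y hy => ?_⟩
  exact (mem_ext.1 (mem_ext_of_subset (hW.trans (ext_subset Y)) (hW hy) hy)).2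

end Pool.Agent.MP_d7dd47_co
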